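import Pool.Agent.T2h48.AT.Main
import Pool.Agent.T2h48.AT.T_BAS
import Pool.Agent.T2h48.AT.T_COMB
import Pool.Agent.T2h48.AT.T_CORE
import Pool.Agent.T2h48.AT.T_COUNT
import Pool.Agent.T2h48.AT.T_EXT
import Pool.Agent.T2h48.AT.T_HTP
import Pool.Agent.T2h48.AT.T_KRU
import Pool.Agent.T2h48.AT.T_LOWER
import Pool.Agent.T2h48.AT.T_LWF
import Pool.Agent.T2h48.AT.T_MIN
import Pool.Agent.T2h48.AT.T_SPEC
import Pool.Agent.T2h48.AT.T_UNIQ
import Pool.Agent.T2h48.AT.T_LIN
import Pool.Agent.T2h48.AT.T_TD
import Pool.Agent.T2h48.AT.T_NB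
import Pool.Agent.T2h48.AT.T_FAM
import Pool.Agent.T2h48.AT.T_CNT
import Pool.Agent.T2h48.AT.T_EQN
import Pool.Agent.T2h48.AT.T_HD
import Pool.Agent.T2h48.AT.T_OPT
import Pool.Agent.T2h48.LP.All

/-!
# The exact exponent in the Brown–Erdős–Sós problem for algebraic triple systems over towers of finite fields

Let `F` be a finite field and `E` a quantifier-free formula over `F` in `3 a` variables. For every finite
extension `K` of `F` it defines a 3-graph `H(K)` on the vertex set `K ^ a`. We show, for every `s ≥ 2`: if for a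
cofinal family of extensions no `s` edges of `H(K)` span at most `s + 3` vertices, then
`#H(K) ≤ C N ^ (2 - 1 / (s - 1))` for all finite extensions `K`, where `N` is the number of the vertices of
`H(K)` that are not isolated. The exponent does not depend on `E` and `a`. It is the exponent of the lower
bound that Brown, Erdős and Sós obtained for general 3-graphs by the deletion method. Conversely, for every
`s ≥ 3` and every characteristic no smaller exponent will do.

Proof of the upper bound. Let `ξ` be the generic edge of a component of dimension `D`, and let `d j` be the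
dimension of the variety of the `j`-th vertices. The points of a domain that specialise to `ξ` and satisfy
equalities between coordinates are abundant by Krull's height theorem; a vertex is determined by the
coordinates of a transcendence basis, so that a common vertex of two edges costs only `d j` equations. If
`(s - 1) D > (2 s - 3) d j` for all `j` then zigzag configurations `ψ 0 = ξ, ψ 1, …, ψ (s - 1)` with the number of
the vertices bounded by `s + 3` vary in a family of positive dimension; an argument with the submodularity of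
(number of vertices) - (number of edges) takes care of the degenerate ones. By specialisation there are
configurations over all extensions of degree divisible by some `n₀`. So in our case
`(s - 1) D ≤ (2 s - 3) d j` for some `j`, and the bound follows from the theorem of Lang and Weil.

Proof of the lower bound. `D` of the `3 d` coordinates of an edge are free, the others are generic
polynomials of them. If `(s - 1) D < (2 s - 3) d` then, by a count of transcendence degrees, the generic edge is
in no configuration. So there is a polynomial `g ≠ 0` such that no edge with `g ≠ 0` is in a configuration, and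
this is preserved by a specialisation of the coefficients to a finite field.
-/

set_option autoImplicit false

namespace Pool.Agent.Results.MP_c82047_co.AlgebraicTowersExponent

/-- Quantifier-free formulas in the language of rings with `n` free variables and coefficients in `F`:
`eq f` is the equation `f = 0`, `neg` is the negation, `and` is the conjunction. -/
inductive QF (F : Type) [CommRing F] (n : ℕ) : Type
  | eq : MvPolynomial (Fin n) F → QF F n
  | neg : QF F n → QF F n
  | and : QF F n → QF F n → QF F n

/-- truth of a formula at a point `x ∈ K ^ n` -/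
def QF.Holds {F : Type} [CommRing F] {n : ℕ} {K : Type} [CommRing K] [Algebra F K] :
    QF F n → (Fin n → K) → Prop
  | QF.eq f, x => MvPolynomial.aeval x f = 0
  | QF.neg φ, x => ¬ φ.Holds x
  | QF.and φ ψ, x => φ.Holds x ∧ ψ.Holds x

/-- The 3-graph of the formula `E` on the vertex set `K ^ a`: its edges are the sets `{x, y, z}` of three
distinct points `x, y, z ∈ K ^ a` such that `E` is true at `(x, y, z) ∈ K ^ (3 a)`. -/
def edges {F : Type} [Field F] {a : ℕ} (E : QF F (a + a + a)) (K : Type) [Field K] [Algebra F K] :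
    Set (Finset (Fin a → K)) :=
  {e | ∃ x y z : Fin a → K, x ≠ y ∧ x ≠ z ∧ y ≠ z ∧ (e : Set (Fin a → K)) = {x, y, z} ∧
    E.Holds (Fin.append (Fin.append x y) z)}

/-- the set of the vertices that lie on some edge -/
def covered {V : Type} (G : Set (Finset V)) : Set V := {v | ∃ e ∈ G, v ∈ e}

/-- some `s` edges span at most `s + 3` vertices -/
def SpanFew {V : Type} (G : Set (Finset V)) (s : ℕ) : Prop :=
  ∃ S : Finset (Finset V), (∀ e ∈ S, e ∈ G) ∧ S.card = s ∧ {v | ∃ e ∈ S, v ∈ e}.ncard ≤ s + 3

/-- translation of the formulas -/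
def tr {F : Type} [CommRing F] {n : ℕ} : QF F n → Pool.Agent.T2h48.DW.QF F n
  | QF.eq f => .eq f
  | QF.neg φ => .neg (tr φ)
  | QF.and φ ψ => .and (tr φ) (tr ψ)

theorem tr_holds {F : Type} [CommRing F] {n : ℕ} (φ : QF F n) (K : Type) [CommRing K] [Algebra F K]
    (x : Fin n → K) : (tr φ).Holds x ↔ φ.Holds x := by
  induction φ with
  | eq f => exact Iff.rfl
  | neg φ ih => exact not_congr ih
  | and φ ψ ih1 ih2 => exact and_congr ih1 ih2

/-- translation in the other direction -/
def rt {F : Type} [CommRing F] {n : ℕ} : Pool.Agent.T2h48.DW.QF F n → QF F n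
  | .eq f => QF.eq f
  | .neg φ => QF.neg (rt φ)
  | .and φ ψ => QF.and (rt φ) (rt ψ)

theorem rt_holds {F : Type} [CommRing F] {n : ℕ} (φ : Pool.Agent.T2h48.DW.QF F n) (K : Type) [CommRing K]
    [Algebra F K] (x : Fin n → K) : (rt φ).Holds x ↔ φ.Holds x := by
  induction φ with
  | eq f => exact Iff.rfl
  | neg φ ih => exact not_congr ih
  | and φ ψ ih1 ih2 => exact and_congr ih1 ih2

theorem triples_tr {F : Type} [Field F] {a : ℕ} (E : QF F (a + a + a)) (K : Type) [Field K]
    [Algebra F K] : Pool.Agent.T2h48.AT.triples (tr E) K = edges E K := by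
  ext e
  constructor
  · rintro ⟨x, y, z, h1, h2, h3, h4, h5⟩
    exact ⟨x, y, z, h1, h2, h3, h4, (tr_holds E K _).1 h5⟩
  · rintro ⟨x, y, z, h1, h2, h3, h4, h5⟩
    exact ⟨x, y, z, h1, h2, h3, h4, (tr_holds E K _).2 h5⟩

theorem triples_rt {F : Type} [Field F] {a : ℕ} (E : Pool.Agent.T2h48.DW.QF F (a + a + a)) (K : Type)
    [Field K] [Algebra F K] : edges (rt E) K = Pool.Agent.T2h48.AT.triples E K := by
  ext e
  constructor
  · rintro ⟨x, y, z, h1, h2, h3, h4, h5⟩
    exact ⟨x, y, z, h1, h2, h3, h4, (rt_holds E K _).1 h5⟩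
  · rintro ⟨x, y, z, h1, h2, h3, h4, h5⟩
    exact ⟨x, y, z, h1, h2, h3, h4, (rt_holds E K _).2 h5⟩

/-- **The exact exponent in the Brown–Erdős–Sós problem for algebraic triple systems over towers of finite
fields.**
First part. Let `F` be a finite field, `E` a quantifier-free formula over `F` in `3 a` variables, `s ≥ 2`. If for
every `n ≥ 1` there is a finite extension `K` of `F` of degree divisible by `n` such that no `s` edges of the
3-graph of `E` over `K` span at most `s + 3` vertices, then for all finite extensions `K` of `F` the number of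
the edges is at most `C N ^ (2 - 1 / (s - 1))`, where `N` is the number of the non-isolated vertices.
Second part. For every prime `p`, `s ≥ 3` and `ε > 0` there are a finite field `F` of characteristic `p` and a
formula `E` over `F` such that for all finite extensions `K` of `F` no `s` edges span at most `s + 3` vertices, and
`N ≥ #K` and the number of the edges is at least `N ^ (2 - 1 / (s - 1) - ε)` if `#K > C`. -/
theorem result :
    (∀ (F : Type) [Field F] [Finite F] (a : ℕ) (E : QF F (a + a + a)) (s : ℕ), 2 ≤ s →
      (∀ n : ℕ, 1 ≤ n → ∃ (K : Type) (_ : Field K) (_ : Finite K) (_ : Algebra F K),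
        n ∣ Module.finrank F K ∧ ¬ SpanFew (edges E K) s) →
      ∃ C : ℕ, ∀ (K : Type) [Field K] [Finite K] [Algebra F K],
        ((edges E K).ncard : ℝ) ≤ C * ((covered (edges E K)).ncard : ℝ) ^ (2 - 1 / ((s : ℝ) - 1))) ∧
    (∀ (p : ℕ), p.Prime → ∀ (s : ℕ), 3 ≤ s → ∀ ε : ℝ, 0 < ε →
      ∃ (F : Type) (_ : Field F) (_ : Finite F) (_ : CharP F p) (a : ℕ) (E : QF F (a + a + a)) (C : ℕ),
        ∀ (K : Type) [Field K] [Finite K] [Algebra F K], ¬ SpanFew (edges E K) s ∧
          (C < Nat.card K → Nat.card K ≤ (covered (edges E K)).ncard ∧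
            ((covered (edges E K)).ncard : ℝ) ^ (2 - 1 / ((s : ℝ) - 1) - ε) ≤
              ((edges E K).ncard : ℝ))) := by
  constructor
  · intro F _ _ a E s hs hT
    have hCORE := Pool.Agent.T2h48.AT.t_CORE Pool.Agent.T2h48.AT.t_BAS
      (Pool.Agent.T2h48.AT.t_EXT Pool.Agent.T2h48.AT.t_MIN Pool.Agent.T2h48.AT.t_HTP
        Pool.Agent.T2h48.AT.t_KRU) Pool.Agent.T2h48.AT.t_UNIQ Pool.Agent.T2h48.AT.t_COMB
    have hLOWER := Pool.Agent.T2h48.AT.t_LOWER Pool.Agent.T2h48.AT.t_COUNT
      (Pool.Agent.T2h48.AT.t_LWF Pool.Agent.T2h48.LP.main_all)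
    obtain ⟨C, h⟩ := Pool.Agent.T2h48.AT.main Pool.Agent.T2h48.AT.t_BAS hCORE
      Pool.Agent.T2h48.AT.t_SPEC Pool.Agent.T2h48.AT.t_COUNT hLOWER F a (tr E) s hs (by
        intro N hN
        obtain ⟨K, iK, iF, iA, h1, h2⟩ := hT N hN
        refine ⟨K, iK, iF, iA, h1, ?_⟩
        rw [triples_tr]
        exact h2)
    refine ⟨C, fun K _ _ _ => ?_⟩
    have h1 := h K
    rw [triples_tr] at h1
    exact h1
  · intro p hp s hs ε hε
    have : Fact p.Prime := ⟨hp⟩
    have hFAM := Pool.Agent.T2h48.AT.t_FAM
      (Pool.Agent.T2h48.AT.t_NB (Pool.Agent.T2h48.AT.TD.t_TD Pool.Agent.T2h48.AT.LIN.t_LIN))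
      Pool.Agent.T2h48.AT.t_SPEC
    obtain ⟨F, iF, iFin, iC, a, E, C, h⟩ := Pool.Agent.T2h48.AT.t_OPT hFAM Pool.Agent.T2h48.AT.CNT.t_CNT
      Pool.Agent.T2h48.AT.t_EQN Pool.Agent.T2h48.AT.t_HD p s hs ε hε
    refine ⟨F, iF, iFin, iC, a, rt E, C, fun K _ _ _ => ?_⟩
    rw [triples_rt]
    exact h K

end Pool.Agent.Results.MP_c82047_co.AlgebraicTowersExponent
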