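import Pool.Agent.T2h48.AB.Main
import Pool.Agent.T2h48.AB.T_CONF
import Pool.Agent.T2h48.AB.T_GEN
import Pool.Agent.T2h48.AB.T_LIFT
import Pool.Agent.T2h48.AB.T_LIFTU
import Pool.Agent.T2h48.AB.T_LOWER
import Pool.Agent.T2h48.AB.T_NET
import Pool.Agent.T2h48.AB.T_POINTS
import Pool.Agent.T2h48.AB.T_UPPER
import Pool.Agent.T2h48.LZ.T_LANDAU
import Pool.Agent.T2h48.LZ.T_DROP

set_option autoImplicit false

namespace Pool.Agent.Results.MP_c82047_co.AlgebraicTripleSystems

/-- Quantifier-free formulas in the language of rings with `n` free variables and coefficients in `F`: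
`eq f` is the equation `f = 0`, `neg` is the negation, `and` is the conjunction. -/
inductive QF (F : Type) [CommRing F] (n : ℕ) : Type
  | eq : MvPolynomial (Fin n) F → QF F n
  | neg : QF F n → QF F n
  | and : QF F n → QF F n → QF F n

/-- truth of a formula at a point `x ∈ K ^ n` -/
def QF.Holds {F : Type} [CommRing F] {n : ℕ} {K : Type} [CommRing K] [Algebra F K] :
    QF F n → (Fin n → K) → Prop
  | QF.eq f, x => MvPolynomial.aeval x f = 0
  | QF.neg φ, x => ¬ φ.Holds x
  | QF.and φ ψ, x => φ.Holds x ∧ ψ.Holds x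

/-- The 3-graph of the formula `E` on the vertex set `k ^ a`: its edges are the sets `{x, y, z}` of three
distinct points `x, y, z ∈ k ^ a` such that `E` is true at `(x, y, z) ∈ k ^ (3 a)`. -/
def edges {a : ℕ} (E : QF ℤ (a + a + a)) (k : Type) [Field k] : Set (Finset (Fin a → k)) :=
  {e | ∃ x y z : Fin a → k, x ≠ y ∧ x ≠ z ∧ y ≠ z ∧ (e : Set (Fin a → k)) = {x, y, z} ∧
    E.Holds (Fin.append (Fin.append x y) z)}

/-- the set of the vertices that lie on some edge -/
def covered {V : Type} (G : Set (Finset V)) : Set V := {v | ∃ e ∈ G, v ∈ e}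

/-- some `s` edges span at most `s + 3` vertices -/
def SpanFew {V : Type} (G : Set (Finset V)) (s : ℕ) : Prop :=
  ∃ S : Finset (Finset V), (∀ e ∈ S, e ∈ G) ∧ S.card = s ∧ {v | ∃ e ∈ S, v ∈ e}.ncard ≤ s + 3

/-- translation of the formulas -/
def tr {n : ℕ} : QF ℤ n → Pool.Agent.T2h48.DW.QF ℤ n
  | QF.eq f => .eq f
  | QF.neg φ => .neg (tr φ)
  | QF.and φ ψ => .and (tr φ) (tr ψ)

theorem tr_holds {n : ℕ} (φ : QF ℤ n) (k : Type) [Field k] (x : Fin n → k) :
    (tr φ).Holds x ↔ φ.Holds x := by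
  induction φ with
  | eq f => exact Iff.rfl
  | neg φ ih => exact not_congr ih
  | and φ ψ ih1 ih2 => exact and_congr ih1 ih2

/-- **The Brown–Erdős–Sós conjecture for algebraic triple systems over finite fields of large
characteristic, with a power saving.** For every quantifier-free formula `E` over `ℤ` in `3 a` variables and
every `s` there is `C` such that for every finite field `k` of characteristic greater than `C`: if no `s`
edges of the 3-graph of `E` over `k` span at most `s + 3` vertices then its number of edges is at most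
`C N ^ (2 - 1 / a)`, where `N` is the number of its non-isolated vertices. -/
theorem result (a : ℕ) (E : QF ℤ (a + a + a)) (s : ℕ) :
    ∃ C : ℕ, ∀ (k : Type) [Field k] [Finite k], C < ringChar k → ¬ SpanFew (edges E k) s →
      ((edges E k).ncard : ℝ) ≤ C * ((covered (edges E k)).ncard : ℝ) ^ (2 - 1 / (a : ℝ)) := by
  have hL := Pool.Agent.T2h48.LZ.t_LANDAU
  have hC := Pool.Agent.T2h48.AB.t_CONF Pool.Agent.T2h48.AB.t_LIFT Pool.Agent.T2h48.AB.t_LIFTU
    Pool.Agent.T2h48.AB.t_NET
  obtain ⟨C, h⟩ := Pool.Agent.T2h48.AB.main hL hC Pool.Agent.T2h48.AB.t_GEN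
    (Pool.Agent.T2h48.AB.t_POINTS hL) (Pool.Agent.T2h48.AB.t_UPPER hL Pool.Agent.T2h48.LZ.t_DROP)
    (Pool.Agent.T2h48.AB.t_LOWER hL) a (tr E) s
  refine ⟨C, fun k _ _ hk hs => ?_⟩
  have he : Pool.Agent.T2h48.AB.triples (tr E) k = edges E k := by
    ext e
    constructor
    · rintro ⟨x, y, z, h1, h2, h3, h4, h5⟩
      exact ⟨x, y, z, h1, h2, h3, h4, (tr_holds E k _).1 h5⟩
    · rintro ⟨x, y, z, h1, h2, h3, h4, h5⟩
      exact ⟨x, y, z, h1, h2, h3, h4, (tr_holds E k _).2 h5⟩
  have h1 := h k hk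
  rw [he] at h1
  exact h1 hs

end Pool.Agent.Results.MP_c82047_co.AlgebraicTripleSystems
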