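import Pool.Agent.T3h47.BM.Piece

/-!
# The Brown-Erdős-Sós conjecture for unions of `o(n)` relations closed under Mal'tsev operations

A *Mal'tsev piece* is a set of triples which is a relation between three disjoint sets `X`, `Y`, `Z`
of vertices, closed under the componentwise application of **some** (arbitrary) Mal'tsev operations
on `X`, on `Y` and on `Z` (`q(a, a, b) = b = q(b, a, a)`). Examples: cosets of subgroups of
`G₁ × G₂ × G₃` for any groups, affine subspaces, submodules, subalgebras of products of
quasigroups, graphs of operations of abelian groups, direct products of all these.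

For `s ≥ 2` let `H` be a 3-graph on `n` vertices which is the union of `L` Mal'tsev pieces and in
which no `s` edges are spanned by `s + 3` vertices (the question of the problem for `k = s + 3`).

1. If `s = 2`, `s = 18` or `s ≥ 22` then `|H| ≤ s (s - 1) L n`. So for these `s` the conjecture
   `o(n²)` holds for unions of `L = o(n)` pieces.
2. For all `s` we have `|H| ≤ (s - 1) L (n / 3)^{3/2}`.
3. For the other values `s = 3, …, 17, 19, 20, 21` the exponent `3 / 2` is optimal, already for
   `L = 1`: for all `q` there is a Mal'tsev piece with `n = 3 q²` vertices and `q³ = (n/3)^{3/2}`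
   triples without `s` triples on `s + 3` vertices for any of these `s`. So for `L = 1` (or bounded
   `L`) the order of magnitude of the maximum of `|H|` is determined for every `s`.
4. Every 3-graph on `n` vertices in which two edges have at most one common vertex is a union of
   `n` Mal'tsev pieces. So `o(n)` in 1. cannot be replaced by `n` unless the conjecture holds for all
   linear 3-graphs.

Proof. Let `θᵢ` be the kernels of the coordinates of a piece `E`, `ψᵢ` the join of the two other
kernels. Congruences permute, so inside a class `U` of `ψ₁ ∧ ψ₂ ∧ ψ₃` any two vertices of different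
sorts lie in a common triple of `U`. A set of triples of `U` which cannot be extended by a triple
with two old vertices has `e` triples and at most `e + 2` vertices (`a + b + c - 2 ≤ max (ab, bc, ac)`),
so triples can be added one by one with at most `e + 3` vertices, and `U` has less than `s` triples.
Now the Loomis-Whitney inequality gives 2. For 1. let `Mᵢ(e)` be the number of `ψᵢ`-classes met by
the triples which share the `i`-th vertex with `e`. If all three numbers are at least `K`, the term
`p(p(x, e, y), y, p(y, e, z))` produces an embedded `K × K × K` grid (triples `G(i, j, k)` whose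
vertices depend only on `(j, k)`, on `(i, k)` and on `(i, j)`), and such a grid contains `s` triples
on `s + 3` vertices exactly for the `s` in 1. So some `Mᵢ(e)` is less than `K`, and there are at most
`K (s - 1)` such triples at the `i`-th vertex of `e`.
-/

set_option autoImplicit false

namespace Pool.Agent.Results.MP_c82047_co.MaltsevPieces

open Finset Pool.Agent.R181.Maj Pool.Agent.T3h47.BM

/-- **Theorem.** Unions of `L` Mal'tsev pieces on `n` vertices without `s` edges on `s + 3` vertices:
(1) at most `s (s - 1) L n` edges for `s = 2`, `s = 18` and `s ≥ 22`; (2) at most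
`(s - 1) L (n/3)^{3/2}` edges for all `s`; (3) the exponent `3/2` is optimal for `L = 1` and all other
`s ≥ 3`; (4) every linear 3-graph is a union of `n` Mal'tsev pieces. -/
theorem result :
    (∀ s : ℕ, (s = 2 ∨ s = 18 ∨ 22 ≤ s) → ∀ (L : ℕ) (V : Type) [Fintype V] (H : Set (Finset V))
      (F : Fin L → Set (Finset V)), (∀ i, MaltsevPiece (F i)) → H = ⋃ i, F i →
      SpanMore H s (s + 3) → H.ncard ≤ s * (s - 1) * L * Fintype.card V) ∧
    (∀ s : ℕ, 1 ≤ s → ∀ (L : ℕ) (V : Type) [Fintype V] (H : Set (Finset V))
      (F : Fin L → Set (Finset V)), (∀ i, MaltsevPiece (F i)) → H = ⋃ i, F i →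
      SpanMore H s (s + 3) →
      (H.ncard : ℝ) ≤ (s - 1) * L * ((Fintype.card V : ℝ) / 3) ^ (3 / 2 : ℝ)) ∧
    (∀ q : ℕ, ∃ (V : Type) (_ : Fintype V) (H : Set (Finset V)),
      Fintype.card V = 3 * q ^ 2 ∧ MaltsevPiece H ∧ H.ncard = q ^ 3 ∧
      ∀ s, 3 ≤ s → s ≤ 21 → s ≠ 18 → SpanMore H s (s + 3)) ∧
    (∀ (V : Type) [Fintype V] (H : Set (Finset V)), (∀ e ∈ H, #e = 3) → SpanMore H 2 4 →
      ∃ F : V → Set (Finset V), (∀ v, MaltsevPiece (F v)) ∧ H = ⋃ v, F v) :=
  ⟨fun s hs L V _ H F hF hH hsp => linear s hs L V H F hF hH hsp,
    fun s hs L V _ H F hF hH hsp => upper s hs L V H F hF hH hsp,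
    fun q => ⟨GridV 2 q, inferInstance, grid 2 q, card_gridV 2 q, grid_piece' q,
      ncard_grid 2 q (by norm_num), fun s h3 h21 h18 => grid_span' q s h3 h21 h18⟩,
    fun V _ H h3 hH => star_union H h3 hH⟩

end Pool.Agent.Results.MP_c82047_co.MaltsevPieces
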