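import Pool.Agent.T3H86.WN.Pieces

/-!
# The Brown-Erdős-Sós conjecture for triple systems closed under weak near-unanimity operations

An operation `w` with `k ≥ 2` arguments is a *weak near-unanimity operation* if `w(a, …, a) = a` and
`w(b, a, …, a) = w(a, b, a, …, a) = … = w(a, …, a, b)`. Examples: idempotent commutative operations
with two arguments, such as meets in semilattices; majority and near-unanimity operations;
`x₁ + … + x_k` in abelian groups of exponent dividing `k - 1`. By a theorem of Maróti and McKenzie
(not used here) a finite idempotent algebra has a term of this kind as soon as it has any Taylor term;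
so, by the theorem of Bulatov and Zhuk, these are the relations given by the instances of the
tractable constraint satisfaction problems, and every other finite template gives all relations.

A *WNU piece* is a set of triples which is a relation between three disjoint sets `X`, `Y`, `Z` of
vertices, closed under the componentwise application of **some** (arbitrary) weak near-unanimity
operations on `X`, `Y`, `Z`, with the same number `k` of arguments, which may be arbitrarily large and
may change from piece to piece.

Let `H` be a 3-graph on `n` vertices which is the union of `L` WNU pieces.

* For EVERY `s ≥ 2`: if any `s` edges of `H` span more than `s + 3` vertices, then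
  `|H| ≤ (s - 1)² L (n/3)^{3/2}`. So the conjecture holds, for all `k = s + 3`, for these 3-graphs as
  long as `L = o(n^{1/2})`. The bound does not depend on the operations or on their arities.
* The exponent is optimal for `k = 6, …, 19`, already for `L = 1` (example of `MajorityPieces`).

The starting file `MajorityPieces` has this bound for majority operations (there the system is
congruence distributive, and it is enough that they span more than `s + 2` vertices), and `MeetClosed` has the exponent `7/4`
for semilattices and `s ≥ 41`.

Proof. Let `y`, `z` be vertices, and let `a ≠ b` be two common neighbours of them: `(a, y, z_a)`,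
`(b, y, z_b)`, `(a, y_a, z)`, `(b, y_b, z)` are edges of one piece. Put `b ∘ a = w(a, b, …, b)`. For
`j = 0, …, k` let `α_j = w(a, …, a, b, …, b)` with `j` entries `a`. For every `j` the element
`ζ_j = w(z_a, …, z_a, z, z_b, …, z_b)` (`z` at the place `j + 1`) gives the edges
`(α_j, y ∘ y_b, ζ_j)` and `(α_(j+1), y ∘ y_a, ζ_j)`. So `b = α_0` and `a = α_k` are joined by a walk
of length `2k` in the union of the links of the two vertices `y ∘ y_b` and `y ∘ y_a`, which alternates
between the two links. Its first edge `(b, y ∘ y_b, ζ_0)` does not depend on `a`. As `w` may be
composed with itself, `2k ≥ s`, and as a path with `s` edges in two links spans `s + 3` vertices, the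
walk closes up. Now if `y ∘ y_a` takes `s - 1` values other than `y ∘ y_b` when `a` runs through the
common neighbours, add the walks one after the other: in the first step of each walk at most one
edge and two vertices are added, then at most one vertex for every new edge, and no new vertex for
one of the new edges. At all times there are `e` edges on at most `e + 3` vertices, and at some time
`e = s`. So there are less than `s` values, and each of them occurs less than `s` times, since the
corresponding walks are in one connected part of two links. Hence `y` and `z` have at most
`(s - 1)²` common neighbours in `X`, and the bound follows by double counting.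
-/

set_option autoImplicit false

namespace Pool.Agent.Results.MP_c82047_co.WnuPieces

open Finset Pool.Agent.R181.Maj Pool.Agent.T3H86.WN

/-- **Theorem.** (1) Let `s ≥ 2`, and let `H` be a 3-graph on `n` vertices which is the union of `L`
relations between three disjoint sets of vertices, each closed under the componentwise application of
some weak near-unanimity operations (with any number `k ≥ 2` of arguments). If any `s` edges of `H`
span more than `s + 3` vertices, then `|H| ≤ (s - 1)² L (n/3)^{3/2}`. (2) For all `q` there is a 3-graph
`H` with `n = 3 q²` vertices and `q³ = (n/3)^{3/2}` edges, which is one such relation, such that any `s`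
edges span more than `s + 3` vertices for all `3 ≤ s ≤ 16`. -/
theorem result :
    (∀ (s L : ℕ), 2 ≤ s → ∀ (V : Type) [Fintype V] (H : Set (Finset V))
      (F : Fin L → Set (Finset V)), (∀ i, WnuPiece (F i)) → H = ⋃ i, F i →
      SpanMore H s (s + 3) →
      (H.ncard : ℝ) ≤ (s - 1) ^ 2 * L * ((Fintype.card V : ℝ) / 3) ^ (3 / 2 : ℝ)) ∧
    (∀ q : ℕ, ∃ (V : Type) (_ : Fintype V) (H : Set (Finset V)),
      Fintype.card V = 3 * q ^ 2 ∧ WnuPiece H ∧ H.ncard = q ^ 3 ∧
      ∀ s, 3 ≤ s → s ≤ 16 → SpanMore H s (s + 3)) := by
  refine ⟨fun s L hs V _ H F hF hH hsp => upper s L hs V H F hF hH hsp, fun q => ?_⟩
  refine ⟨GridV 2 q, inferInstance, grid 2 q, card_gridV 2 q,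
    wnuPiece_of_majority (grid_piece 2 q), ncard_grid 2 q (by norm_num), ?_⟩
  intro s h3 h16
  refine grid_span 2 q s (s + 3) (by norm_num) (by omega) ?_
  interval_cases s <;> norm_num

end Pool.Agent.Results.MP_c82047_co.WnuPieces
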